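import Pool.Agent.helper68.QZ.Spec

set_option autoImplicit false

namespace Pool.Agent.QZ

open N1f72dd46 Filter MeasureTheory Complex Metric Pool.Agent.helper6.LD
open scoped ComplexConjugate

theorem PT_fac (k : ℕ) (r L : ℝ) (hr : 0 < r) (hL : 0 ≤ L) :
    L ^ k / (k.factorial : ℝ) ≤ (r ^ k)⁻¹ * Real.exp (r * L) := by
  have h := Real.pow_div_factorial_le_exp (x := r * L) (by positivity) k
  rw [mul_pow, mul_div_assoc] at h
  rw [inv_mul_eq_div, le_div_iff₀ (by positivity), mul_comm]
  exact h

theorem PT_diff (k : ℕ) (r l u v : ℝ) (hr : 0 < r) (hu : 0 ≤ u) (hul : u ≤ l)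
    (hv : v = l - u ∨ v = l + u) :
    |v ^ k - l ^ k| / (k.factorial : ℝ) ≤ u * (r * (r ^ k)⁻¹) * Real.exp (r * (l + u)) := by
  rcases k with _ | k
  · simp only [pow_zero, sub_self, abs_zero, zero_div]
    positivity
  have h1 := abs_pow_sub_pow_le v l (k + 1)
  have hm : max |v| |l| ≤ l + u := by
    rcases hv with rfl | rfl
    · rw [abs_of_nonneg (by linarith), abs_of_nonneg (by linarith)]
      exact max_le (by linarith) (by linarith)
    · rw [abs_of_nonneg (by linarith), abs_of_nonneg (by linarith)]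
      exact max_le (by linarith) (by linarith)
  have hd : |v - l| = u := by
    rcases hv with rfl | rfl
    · rw [show l - u - l = -u by ring, abs_neg, abs_of_nonneg hu]
    · rw [show l + u - l = u by ring, abs_of_nonneg hu]
  rw [hd, Nat.add_sub_cancel] at h1
  have h2 : max |v| |l| ^ k ≤ (l + u) ^ k :=
    pow_le_pow_left₀ (le_max_of_le_left (abs_nonneg v)) hm k
  have hfac : ((k + 1).factorial : ℝ) = ((k + 1 : ℕ) : ℝ) * (k.factorial : ℝ) := by
    rw [Nat.factorial_succ]; push_cast; ring
  have hk0 : (0 : ℝ) < (k.factorial : ℝ) := by exact_mod_cast k.factorial_pos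
  have hk1 : (0 : ℝ) < ((k + 1 : ℕ) : ℝ) := by positivity
  have h3 := PT_fac k r (l + u) hr (by linarith)
  calc |v ^ (k + 1) - l ^ (k + 1)| / ((k + 1).factorial : ℝ)
      ≤ (u * ((k + 1 : ℕ) : ℝ) * (l + u) ^ k) / ((k + 1).factorial : ℝ) := by
        apply div_le_div_of_nonneg_right _ (by positivity)
        refine h1.trans ?_
        apply mul_le_mul_of_nonneg_left h2 (by positivity)
    _ = u * ((l + u) ^ k / (k.factorial : ℝ)) := by
        rw [hfac]
        field_simp
    _ ≤ u * ((r ^ k)⁻¹ * Real.exp (r * (l + u))) := mul_le_mul_of_nonneg_left h3 hu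
    _ = u * (r * (r ^ (k + 1))⁻¹) * Real.exp (r * (l + u)) := by
        rw [pow_succ]
        field_simp

theorem PT_norm (k : ℕ) (s : ℂ) (x y : ℝ) :
    ‖((x : ℂ)) / (k.factorial : ℂ) * Complex.exp (-s * y)‖ =
      |x| / (k.factorial : ℝ) * Real.exp (-s.re * y) := by
  rw [norm_mul, norm_div, Complex.norm_exp, Complex.norm_real, Real.norm_eq_abs]
  congr 1
  · congr 1
    rw [Complex.norm_natCast]
  · congr 1
    simp

theorem PT : PT_stmt := by
  intro Lam hLam
  refine ⟨2 * Lam * Real.exp Lam, by positivity, ?_⟩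
  intro k δ l u s hδ hδ2 hs2 hsL hu hu4 hul
  set σ := s.re with hσ
  set r := σ - 1 - δ with hr
  have hr0 : 0 < r := by linarith
  have hrL : r ≤ Lam := by linarith
  have hl : 0 ≤ l := hu.trans hul
  have hexp : Real.exp (-(1 + δ) * l) = Real.exp (r * l) * Real.exp (-σ * l) := by
    rw [← Real.exp_add]
    congr 1
    rw [hr]; ring
  have hri : 0 ≤ (r ^ k)⁻¹ := by positivity
  constructor
  · have hid : w k s (l - u) - w k s (l + u) - w k s l * (Complex.exp (s * u) -
        Complex.exp (-s * u)) =
        (((l - u) ^ k - l ^ k : ℝ) : ℂ) / (k.factorial : ℂ) * Complex.exp (-s * ((l - u : ℝ) : ℂ)) -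
        (((l + u) ^ k - l ^ k : ℝ) : ℂ) / (k.factorial : ℂ) *
          Complex.exp (-s * ((l + u : ℝ) : ℂ)) := by
      unfold w
      have e1 : Complex.exp (-s * ((l - u : ℝ) : ℂ)) =
          Complex.exp (-s * l) * Complex.exp (s * u) := by
        rw [← Complex.exp_add]
        congr 1
        push_cast
        ring
      have e2 : Complex.exp (-s * ((l + u : ℝ) : ℂ)) =
          Complex.exp (-s * l) * Complex.exp (-s * u) := by
        rw [← Complex.exp_add]
        congr 1
        push_cast
        ring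
      rw [e1, e2]
      push_cast
      ring
    rw [hid]
    refine (norm_sub_le _ _).trans ?_
    rw [PT_norm, PT_norm]
    have d1 := PT_diff k r l u (l - u) hr0 hu hul (Or.inl rfl)
    have d2 := PT_diff k r l u (l + u) hr0 hu hul (Or.inr rfl)
    have x1 : Real.exp (-s.re * (l - u)) = Real.exp (-σ * l) * Real.exp (σ * u) := by
      rw [← Real.exp_add]; congr 1; rw [hσ]; ring
    have x2 : Real.exp (-s.re * (l + u)) ≤ Real.exp (-σ * l) * Real.exp (σ * u) := by
      rw [← Real.exp_add]
      apply Real.exp_le_exp.2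
      nlinarith
    have x3 : Real.exp (r * (l + u)) = Real.exp (r * l) * Real.exp (r * u) := by
      rw [← Real.exp_add]; congr 1; ring
    have x4 : Real.exp (r * u) * Real.exp (σ * u) ≤ Real.exp Lam := by
      rw [← Real.exp_add]
      apply Real.exp_le_exp.2
      nlinarith
    have hB : 0 ≤ u * (r * (r ^ k)⁻¹) * Real.exp (r * (l + u)) := by positivity
    calc |(l - u) ^ k - l ^ k| / (k.factorial : ℝ) * Real.exp (-s.re * (l - u)) +
          |(l + u) ^ k - l ^ k| / (k.factorial : ℝ) * Real.exp (-s.re * (l + u))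
        ≤ u * (r * (r ^ k)⁻¹) * Real.exp (r * (l + u)) *
            (Real.exp (-σ * l) * Real.exp (σ * u)) +
          u * (r * (r ^ k)⁻¹) * Real.exp (r * (l + u)) *
            (Real.exp (-σ * l) * Real.exp (σ * u)) := by
          rw [x1]
          exact add_le_add (mul_le_mul_of_nonneg_right d1 (by positivity))
            (mul_le_mul d2 x2 (by positivity) hB)
      _ = 2 * r * u * (r ^ k)⁻¹ * (Real.exp (r * l) * Real.exp (-σ * l)) *
            (Real.exp (r * u) * Real.exp (σ * u)) := by rw [x3]; ring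
      _ ≤ 2 * Lam * u * (r ^ k)⁻¹ * (Real.exp (r * l) * Real.exp (-σ * l)) * Real.exp Lam := by
          apply mul_le_mul _ x4 (by positivity) (by positivity)
          gcongr
      _ = 2 * Lam * Real.exp Lam * u * (r ^ k)⁻¹ * Real.exp (-(1 + δ) * l) := by
          rw [hexp]; ring
  · have hw : ‖w k s l‖ = l ^ k / (k.factorial : ℝ) * Real.exp (-σ * l) := by
      have h := PT_norm k s (l ^ k) l
      rw [abs_of_nonneg (by positivity)] at h
      unfold w
      rw [← h]
      push_cast
      rfl
    have h1 := PT_fac k r l hr0 hl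
    have h2 : Real.exp (σ * u) - Real.exp (-σ * u) ≤ 2 * Lam * u * Real.exp Lam := by
      have h3 : 1 - 2 * σ * u ≤ Real.exp (-2 * σ * u) := by
        have := Real.add_one_le_exp (-2 * σ * u)
        linarith
      have h4 : Real.exp (-σ * u) = Real.exp (σ * u) * Real.exp (-2 * σ * u) := by
        rw [← Real.exp_add]; congr 1; ring
      have h5 : Real.exp (σ * u) ≤ Real.exp Lam := by
        apply Real.exp_le_exp.2
        nlinarith
      calc Real.exp (σ * u) - Real.exp (-σ * u)
          = Real.exp (σ * u) * (1 - Real.exp (-2 * σ * u)) := by rw [h4]; ring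
        _ ≤ Real.exp (σ * u) * (2 * σ * u) :=
            mul_le_mul_of_nonneg_left (by linarith) (Real.exp_pos _).le
        _ ≤ Real.exp Lam * (2 * Lam * u) := by
            apply mul_le_mul h5 _ (by positivity) (Real.exp_pos _).le
            nlinarith
        _ = _ := by ring
    have h3 : 0 ≤ Real.exp (σ * u) - Real.exp (-σ * u) := by
      apply sub_nonneg.2
      apply Real.exp_le_exp.2
      nlinarith
    have hs : (-s.re) = -σ := rfl
    rw [hw]
    calc l ^ k / (k.factorial : ℝ) * Real.exp (-σ * l) * (Real.exp (σ * u) - Real.exp (-σ * u))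
        ≤ ((r ^ k)⁻¹ * Real.exp (r * l)) * Real.exp (-σ * l) * (2 * Lam * u * Real.exp Lam) := by
          apply mul_le_mul _ h2 h3 (by positivity)
          exact mul_le_mul_of_nonneg_right h1 (Real.exp_pos _).le
      _ = 2 * Lam * Real.exp Lam * u * (r ^ k)⁻¹ * Real.exp (-(1 + δ) * l) := by
          rw [hexp]; ring

end Pool.Agent.QZ
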